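import Mathlib

/-!
A Banach space with a Markushevich basis (arbitrary index set) containing `l^∞`.
-/

open Filter Topology
open scoped ENNReal

namespace Pool.Agent.Results.MP_810de6_an.LinftyInMBasisSpace

/-- `(x i, f i)` is a biorthogonal system with dense span and total functionals, i.e. the family
`x` is an extended M-basis of `E` with coefficient functionals `f`. -/
def IsExtendedMBasis (𝕜 : Type) [RCLike 𝕜] {E : Type} [NormedAddCommGroup E] [NormedSpace 𝕜 E]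
    {I : Type} (x : I → E) (f : I → (E →L[𝕜] 𝕜)) : Prop :=
  (∀ i, f i (x i) = 1) ∧ (∀ i j, i ≠ j → f j (x i) = 0) ∧
  (∀ v : E, (∀ i, f i v = 0) → v = 0) ∧
  (Submodule.span 𝕜 (Set.range x)).topologicalClosure = ⊤

variable (𝕜 : Type) [RCLike 𝕜]

/-- bounded sequences. -/
abbrev Linf : Type := lp (fun _ : ℕ => 𝕜) ∞

/-- the index set. -/
abbrev Gam : Type := {x : Linf 𝕜 // ‖x‖ ≤ 1} × ℕ

/-- absolutely summable families over the index set. -/
abbrev L1 : Type := lp (fun _ : Gam 𝕜 => 𝕜) 1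

variable {𝕜}

open Classical in
/-- the coordinates of the perturbing vectors. -/
noncomputable def zc (γ : Gam 𝕜) (n : ℕ) : 𝕜 := if γ.2 ≤ n then ((γ.2 : 𝕜) + 1) * (γ.1.1 n) else 0

lemma zc_bound_n (γ : Gam 𝕜) (n : ℕ) : ‖zc γ n‖ ≤ (n : ℝ) + 1 := by
  unfold zc
  split_ifs with h
  · rw [norm_mul]
    have h1 : ‖((γ.2 : 𝕜) + 1)‖ ≤ (n : ℝ) + 1 := by
      have : ‖((γ.2 : 𝕜) + 1)‖ ≤ (γ.2 : ℝ) + 1 := by
        refine (norm_add_le _ _).trans ?_
        simp
      have h' : (γ.2 : ℝ) ≤ n := by exact_mod_cast h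
      linarith
    have h2 : ‖γ.1.1 n‖ ≤ 1 :=
      (lp.norm_apply_le_norm (by simp) γ.1.1 n).trans γ.1.2
    calc _ ≤ ((n : ℝ) + 1) * 1 := by
          apply mul_le_mul h1 h2 (norm_nonneg _) (by positivity)
      _ = _ := mul_one _
  · simp; positivity

lemma zc_bound_k (γ : Gam 𝕜) (n : ℕ) : ‖zc γ n‖ ≤ (γ.2 : ℝ) + 1 := by
  unfold zc
  split_ifs with h
  · rw [norm_mul]
    have h1 : ‖((γ.2 : 𝕜) + 1)‖ ≤ (γ.2 : ℝ) + 1 := by
      refine (norm_add_le _ _).trans ?_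
      simp
    have h2 : ‖γ.1.1 n‖ ≤ 1 :=
      (lp.norm_apply_le_norm (by simp) γ.1.1 n).trans γ.1.2
    calc _ ≤ ((γ.2 : ℝ) + 1) * 1 := by
          apply mul_le_mul h1 h2 (norm_nonneg _) (by positivity)
      _ = _ := mul_one _
  · simp; positivity

/-- the perturbing vector. -/
noncomputable def z (γ : Gam 𝕜) : Linf 𝕜 :=
  ⟨fun n => zc γ n, memℓp_infty ⟨(γ.2 : ℝ) + 1, by rintro _ ⟨n, rfl⟩; exact zc_bound_k γ n⟩⟩

lemma z_apply (γ : Gam 𝕜) (n : ℕ) : (z γ) n = zc γ n := rfl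

/-- evaluation at a coordinate as a functional on bounded sequences. -/
noncomputable def ev (n : ℕ) : Linf 𝕜 →L[𝕜] 𝕜 :=
  LinearMap.mkContinuous
    { toFun := fun y => y n
      map_add' := fun _ _ => rfl
      map_smul' := fun _ _ => rfl } 1
    (fun y => by
      rw [one_mul]
      exact lp.norm_apply_le_norm (by simp) y n)

lemma ev_apply (n : ℕ) (y : Linf 𝕜) : (ev (𝕜 := 𝕜) n) y = y n := rfl

/-- evaluation at a coordinate as a functional on `L1`. -/
noncomputable def ev1 (γ : Gam 𝕜) : L1 𝕜 →L[𝕜] 𝕜 :=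
  LinearMap.mkContinuous
    { toFun := fun y => y γ
      map_add' := fun _ _ => rfl
      map_smul' := fun _ _ => rfl } 1
    (fun y => by
      rw [one_mul]
      exact lp.norm_apply_le_norm (by simp) y γ)

lemma ev1_apply (γ : Gam 𝕜) (y : L1 𝕜) : ev1 γ y = y γ := rfl

lemma l1_summable (a : L1 𝕜) : Summable (fun γ => ‖a γ‖) := by
  have := (lp.memℓp a).summable (by simp)
  simpa using this

lemma l1_norm (a : L1 𝕜) : ‖a‖ = ∑' γ, ‖a γ‖ := by
  have := lp.norm_eq_tsum_rpow (p := 1) (by simp) a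
  simpa using this

lemma summable_c (n : ℕ) (a : L1 𝕜) : Summable (fun γ => a γ * zc γ n) := by
  apply Summable.of_norm_bounded (g := fun γ => ‖a γ‖ * ((n : ℝ) + 1))
    ((l1_summable a).mul_right _)
  intro γ
  rw [norm_mul]
  exact mul_le_mul_of_nonneg_left (zc_bound_n γ n) (norm_nonneg _)

/-- the functional `a ↦ ∑ a γ * z γ n`. -/
noncomputable def c (n : ℕ) : L1 𝕜 →L[𝕜] 𝕜 :=
  LinearMap.mkContinuous
    { toFun := fun a => ∑' γ, a γ * zc γ n
      map_add' := fun a b => by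
        rw [← (summable_c n a).tsum_add (summable_c n b)]
        apply tsum_congr
        intro γ
        rw [← add_mul]
        rfl
      map_smul' := fun r a => by
        simp only [RingHom.id_apply, smul_eq_mul]
        rw [← tsum_mul_left]
        apply tsum_congr
        intro γ
        rw [← mul_assoc]
        rfl } ((n : ℝ) + 1)
    (fun a => by
      show ‖∑' γ, a γ * zc γ n‖ ≤ ((n : ℝ) + 1) * ‖a‖
      have hs : Summable (fun γ => ‖a γ * zc γ n‖) := by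
        apply Summable.of_nonneg_of_le (fun _ => norm_nonneg _) (fun γ => ?_)
          ((l1_summable a).mul_right ((n : ℝ) + 1))
        rw [norm_mul]
        exact mul_le_mul_of_nonneg_left (zc_bound_n γ n) (norm_nonneg _)
      calc ‖∑' γ, a γ * zc γ n‖ ≤ ∑' γ, ‖a γ * zc γ n‖ := norm_tsum_le_tsum_norm hs
        _ ≤ ∑' γ, ‖a γ‖ * ((n : ℝ) + 1) := by
            apply hs.tsum_le_tsum _ ((l1_summable a).mul_right _)
            intro γ
            rw [norm_mul]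
            exact mul_le_mul_of_nonneg_left (zc_bound_n γ n) (norm_nonneg _)
        _ = ((n : ℝ) + 1) * ‖a‖ := by
            rw [tsum_mul_right, l1_norm, mul_comm])

lemma c_apply (n : ℕ) (a : L1 𝕜) : c n a = ∑' γ, a γ * zc γ n := rfl

open Classical in
/-- unit vectors in `L1`. -/
noncomputable def e1 (γ : Gam 𝕜) : L1 𝕜 := lp.single 1 γ 1

lemma e1_self (γ : Gam 𝕜) : (e1 γ) γ = 1 := by
  simp [e1]

lemma e1_ne {γ δ : Gam 𝕜} (h : γ ≠ δ) : (e1 γ) δ = 0 := by
  simp [e1, Ne.symm h]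

lemma c_e1 (n : ℕ) (γ : Gam 𝕜) : c n (e1 γ) = zc γ n := by
  rw [c_apply, tsum_eq_single γ]
  · rw [e1_self, one_mul]
  · intro δ hδ
    rw [e1_ne (Ne.symm hδ), zero_mul]

lemma norm_e1 (γ : Gam 𝕜) : ‖e1 γ‖ = 1 := by
  rw [l1_norm, tsum_eq_single γ]
  · rw [e1_self, norm_one]
  · intro δ hδ
    rw [e1_ne (Ne.symm hδ), norm_zero]

/-- unit vectors of bounded sequences. -/
noncomputable def ei (n : ℕ) : Linf 𝕜 := lp.single ∞ n 1

lemma ei_apply (n m : ℕ) : (ei n : Linf 𝕜) m = if m = n then 1 else 0 := by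
  by_cases h : m = n
  · subst h; simp [ei]
  · simp [ei, h]

/-- The vectors of the basis. -/
noncomputable def X : ℕ ⊕ Gam 𝕜 → (Linf 𝕜 × L1 𝕜)
  | Sum.inl n => (ei n, 0)
  | Sum.inr γ => (z γ, e1 γ)

/-- The functionals. -/
noncomputable def F : ℕ ⊕ Gam 𝕜 → ((Linf 𝕜 × L1 𝕜) →L[𝕜] 𝕜)
  | Sum.inl n => (ev n).comp (ContinuousLinearMap.fst 𝕜 _ _) - (c n).comp (ContinuousLinearMap.snd 𝕜 _ _)
  | Sum.inr γ => (ev1 γ).comp (ContinuousLinearMap.snd 𝕜 _ _)

lemma F_inl (n : ℕ) (v : Linf 𝕜 × L1 𝕜) : F (Sum.inl n) v = v.1 n - c n v.2 := rfl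
lemma F_inr (γ : Gam 𝕜) (v : Linf 𝕜 × L1 𝕜) : F (Sum.inr γ) v = v.2 γ := rfl

lemma mem_of_closed (S : Submodule 𝕜 (Linf 𝕜 × L1 𝕜)) (hclosed : IsClosed (S : Set (Linf 𝕜 × L1 𝕜)))
    (hX : ∀ i, X i ∈ S) (v : Linf 𝕜 × L1 𝕜) : v ∈ S := by
  -- unit ball of bounded sequences
  have h1 : ∀ x : Linf 𝕜, ‖x‖ ≤ 1 → ((x, 0) : Linf 𝕜 × L1 𝕜) ∈ S := by
    intro x hx
    let u : ℕ → Linf 𝕜 × L1 𝕜 := fun k =>
      ((k : 𝕜) + 1)⁻¹ • X (Sum.inr (⟨x, hx⟩, k)) + ∑ n ∈ Finset.range k, (x n) • X (Sum.inl n)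
    have hu : ∀ k, u k ∈ S := fun k =>
      S.add_mem (S.smul_mem _ (hX _)) (S.sum_mem fun n _ => S.smul_mem _ (hX _))
    have hu' : ∀ k, u k = (x, ((k : 𝕜) + 1)⁻¹ • e1 (⟨x, hx⟩, k)) := by
      intro k
      have hk : ((k : 𝕜) + 1) ≠ 0 := by exact_mod_cast Nat.succ_ne_zero k
      ext1
      · show (u k).1 = x
        apply lp.ext
        funext m
        have e1' : (u k).1 = ((k : 𝕜) + 1)⁻¹ • z (⟨x, hx⟩, k)
            + ∑ n ∈ Finset.range k, (x n) • (ei n : Linf 𝕜) := by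
          show (((k : 𝕜) + 1)⁻¹ • X (Sum.inr (⟨x, hx⟩, k))).1 +
            (∑ n ∈ Finset.range k, (x n) • X (Sum.inl n)).1 = _
          rw [Prod.fst_sum]
          rfl
        rw [e1']
        have e2' : ((((k : 𝕜) + 1)⁻¹ • z (⟨x, hx⟩, k)
            + ∑ n ∈ Finset.range k, (x n) • (ei n : Linf 𝕜) : Linf 𝕜) : ℕ → 𝕜) m
            = ((k : 𝕜) + 1)⁻¹ * zc (⟨x, hx⟩, k) m
              + ∑ n ∈ Finset.range k, (x n) * (ei n : Linf 𝕜) m := by
          rw [← ev_apply, map_add, map_sum, map_smul]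
          simp only [map_smul, smul_eq_mul]
          rfl
        rw [e2']
        simp only [ei_apply, mul_ite, mul_one, mul_zero]
        rw [Finset.sum_ite_eq]
        unfold zc
        by_cases hm : k ≤ m
        · simp only [hm, if_true, Finset.mem_range, not_lt.mpr hm, if_false, add_zero]
          rw [← mul_assoc, inv_mul_cancel₀ hk, one_mul]
        · simp only [hm, if_false, mul_zero, zero_add, Finset.mem_range, not_le.mp hm, if_true]
      · show (u k).2 = _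
        show (((k : 𝕜) + 1)⁻¹ • X (Sum.inr (⟨x, hx⟩, k))).2 +
            (∑ n ∈ Finset.range k, (x n) • X (Sum.inl n)).2 = _
        rw [Prod.snd_sum]
        have : ∀ n ∈ Finset.range k, ((x n) • X (𝕜 := 𝕜) (Sum.inl n)).2 = 0 := by
          intro n _
          show (x n) • (0 : L1 𝕜) = 0
          rw [smul_zero]
        rw [Finset.sum_congr rfl this, Finset.sum_const_zero, add_zero]
        rfl
    have hlim : Tendsto u atTop (𝓝 (x, 0)) := by
      have : u = fun k : ℕ => (x, ((k : 𝕜) + 1)⁻¹ • e1 ((⟨x, hx⟩, k) : Gam 𝕜)) := funext hu'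
      rw [this]
      refine Tendsto.prodMk_nhds tendsto_const_nhds ?_
      rw [tendsto_zero_iff_norm_tendsto_zero]
      have hn : ∀ k : ℕ, ‖((k : 𝕜) + 1)⁻¹ • e1 ((⟨x, hx⟩, k) : Gam 𝕜)‖ = 1 / ((k : ℝ) + 1) := by
        intro k
        rw [norm_smul, norm_e1, mul_one, norm_inv, one_div]
        congr 1
        have : ((k : 𝕜) + 1) = ((k + 1 : ℕ) : 𝕜) := by push_cast; rfl
        rw [this, RCLike.norm_natCast]
        push_cast; rfl
      simp_rw [hn]
      exact tendsto_one_div_add_atTop_nhds_zero_nat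
    exact hclosed.mem_of_tendsto hlim (Eventually.of_forall hu)
  have h2 : ∀ x : Linf 𝕜, ((x, 0) : Linf 𝕜 × L1 𝕜) ∈ S := by
    intro x
    by_cases hx : ‖x‖ = 0
    · have : x = 0 := norm_eq_zero.mp hx
      rw [this]
      exact S.zero_mem
    · have hx' : (‖x‖ : 𝕜) ≠ 0 := by exact_mod_cast hx
      have := S.smul_mem (‖x‖ : 𝕜) (h1 ((‖x‖ : 𝕜)⁻¹ • x) (by
        rw [norm_smul, norm_inv, RCLike.norm_ofReal, abs_norm, inv_mul_cancel₀ hx]))
      have h3 : (‖x‖ : 𝕜) • ((((‖x‖ : 𝕜)⁻¹ • x, 0)) : Linf 𝕜 × L1 𝕜) = (x, 0) := by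
        ext1
        · show (‖x‖ : 𝕜) • ((‖x‖ : 𝕜)⁻¹ • x) = x
          rw [smul_smul, mul_inv_cancel₀ hx', one_smul]
        · show (‖x‖ : 𝕜) • (0 : L1 𝕜) = 0
          rw [smul_zero]
      rw [h3] at this
      exact this
  have h3 : ∀ γ : Gam 𝕜, ((0, e1 γ) : Linf 𝕜 × L1 𝕜) ∈ S := by
    intro γ
    have := S.sub_mem (hX (Sum.inr γ)) (h2 (z γ))
    have h4 : X (Sum.inr γ) - ((z γ, 0) : Linf 𝕜 × L1 𝕜) = (0, e1 γ) := by
      show ((z γ - z γ, e1 γ - 0) : Linf 𝕜 × L1 𝕜) = _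
      rw [sub_self, sub_zero]
    rw [h4] at this
    exact this
  have h4 : ∀ a : L1 𝕜, ((0, a) : Linf 𝕜 × L1 𝕜) ∈ S := by
    classical
    intro a
    have hs := lp.hasSum_single (p := 1) (by simp) a
    have hs' : HasSum (fun γ => ((0, lp.single 1 γ (a γ)) : Linf 𝕜 × L1 𝕜)) (0, a) := by
      have := hs.map (ContinuousLinearMap.inr 𝕜 (Linf 𝕜) (L1 𝕜)) (ContinuousLinearMap.continuous _)
      exact this
    refine hclosed.mem_of_tendsto hs' (Eventually.of_forall fun s => S.sum_mem fun γ _ => ?_)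
    have : ((0, lp.single 1 γ (a γ)) : Linf 𝕜 × L1 𝕜) = (a γ) • ((0, e1 γ) : Linf 𝕜 × L1 𝕜) := by
      ext1
      · show (0 : Linf 𝕜) = (a γ) • (0 : Linf 𝕜)
        rw [smul_zero]
      · show lp.single 1 γ (a γ) = (a γ) • e1 γ
        apply lp.ext
        funext δ
        show _ = (a γ) * (e1 γ) δ
        by_cases h : γ = δ
        · subst h; rw [e1_self]; simp
        · rw [e1_ne h]; simp [Ne.symm h]
    have h5 := S.smul_mem (a γ) (h3 γ)
    rw [← this] at h5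
    exact h5
  have : v = (v.1, 0) + (0, v.2) := by
    ext1
    · show v.1 = v.1 + 0
      rw [add_zero]
    · show v.2 = 0 + v.2
      rw [zero_add]
  rw [this]
  exact S.add_mem (h2 _) (h4 _)

lemma span_closed (v : Linf 𝕜 × L1 𝕜) :
    v ∈ (Submodule.span 𝕜 (Set.range (X (𝕜 := 𝕜)))).topologicalClosure :=
  mem_of_closed _ (Submodule.isClosed_topologicalClosure _)
    (fun i => Submodule.le_topologicalClosure _ (Submodule.subset_span (Set.mem_range_self i))) v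

lemma mbasis : IsExtendedMBasis 𝕜 (X (𝕜 := 𝕜)) (F (𝕜 := 𝕜)) := by
  refine ⟨?_, ?_, ?_, ?_⟩
  · rintro (n | γ)
    · rw [F_inl]
      show (ei n : Linf 𝕜) n - c n 0 = 1
      rw [map_zero, ei_apply]; simp
    · rw [F_inr]
      exact e1_self γ
  · rintro (n | γ) (m | δ) h
    · rw [F_inl]
      show (ei n : Linf 𝕜) m - c m 0 = 0
      have : m ≠ n := fun h' => h (by rw [h'])
      rw [map_zero, ei_apply, if_neg this, sub_zero]
    · rw [F_inr]
      rfl
    · rw [F_inl]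
      show (z γ) m - c m (e1 γ) = 0
      rw [c_e1, z_apply, sub_self]
    · rw [F_inr]
      exact e1_ne (fun h' => h (by rw [h']))
  · intro v hv
    have h2 : v.2 = 0 := by
      apply lp.ext
      funext γ
      have := hv (Sum.inr γ)
      rw [F_inr] at this
      exact this
    have h1 : v.1 = 0 := by
      apply lp.ext
      funext n
      have := hv (Sum.inl n)
      rw [F_inl, h2, map_zero, sub_zero] at this
      exact this
    exact Prod.ext h1 h2
  · rw [eq_top_iff]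
    intro v _
    exact span_closed v

/-- For real and for complex scalars there is a Banach space with an extended M-basis that has a
closed subspace linearly homeomorphic to `l^∞`. -/
theorem result : ∀ (𝕜 : Type) [RCLike 𝕜],
    ∃ (E : Type) (_ : NormedAddCommGroup E) (_ : NormedSpace 𝕜 E), CompleteSpace E ∧
      (∃ (I : Type) (x : I → E) (f : I → (E →L[𝕜] 𝕜)), IsExtendedMBasis 𝕜 x f) ∧
      ∃ G : Submodule 𝕜 E, IsClosed (G : Set E) ∧
        Nonempty ((lp (fun _ : ℕ => 𝕜) ∞) ≃L[𝕜] G) := by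
  intro 𝕜 _
  refine ⟨Linf 𝕜 × L1 𝕜, inferInstance, inferInstance, inferInstance,
    ⟨ℕ ⊕ Gam 𝕜, X, F, mbasis⟩, ?_⟩
  let T : Linf 𝕜 →ₗᵢ[𝕜] (Linf 𝕜 × L1 𝕜) :=
    { toLinearMap := LinearMap.inl 𝕜 _ _
      norm_map' := fun x => by simp [Prod.norm_def] }
  refine ⟨LinearMap.range T.toLinearMap, ?_, ?_⟩
  · have h := T.isometry.isClosedEmbedding.isClosed_range
    rw [LinearMap.coe_range]
    exact h
  · exact ⟨T.equivRange.toContinuousLinearEquiv⟩

end Pool.Agent.Results.MP_810de6_an.LinftyInMBasisSpace
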